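import Pool.Agent.Helper69.QC.St

/-!
# Project QD, part C, module FRM: the norm of a lattice vector
-/

set_option autoImplicit false

open Complex MeasureTheory Set Filter Topology Metric
open scoped Real ComplexConjugate

namespace Pool.Agent.Helper37.QC

open Pool.Agent.Helper69.QC

private theorem frm_norm (p q : ℤ) (r θ : ℝ) :
    ‖gi p q + circleMap 0 r θ * conj (gi p q)‖ ^ 2 =
      (p + r * (p * Real.cos θ + q * Real.sin θ)) ^ 2 +
        (q + r * (p * Real.sin θ - q * Real.cos θ)) ^ 2 := by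
  have h1 : circleMap 0 r θ = ((r * Real.cos θ : ℝ) : ℂ) + ((r * Real.sin θ : ℝ) : ℂ) * I := by
    rw [circleMap_zero, Complex.exp_mul_I]
    push_cast
    ring
  have h2 : conj (gi p q) = (p : ℂ) - (q : ℂ) * I := by
    unfold gi
    rw [map_add, map_mul, Complex.conj_I, map_intCast, map_intCast]
    ring
  have h3 : gi p q + circleMap 0 r θ * conj (gi p q) =
      ((p + r * (p * Real.cos θ + q * Real.sin θ) : ℝ) : ℂ) +
        ((q + r * (p * Real.sin θ - q * Real.cos θ) : ℝ) : ℂ) * I := by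
    rw [h1, h2]
    unfold gi
    push_cast
    linear_combination (-(r : ℂ) * Complex.sin θ * q) * Complex.I_sq
  rw [h3, Complex.sq_norm, Complex.normSq_add_mul_I]

theorem cFRM (rrb : St_RRB) : St_FRM := by
  obtain ⟨-, hlt, -, hexp, -, -, -, -⟩ := rrb
  constructor
  · intro t θ p q
    rw [frm_norm]
    have h1 : 0 < 1 - rr t := by linarith [hlt t]
    have h2 := hexp t
    have h3 : 0 < 1 + rr t := by
      have h4 := Real.exp_pos t
      rw [← h2] at h4
      by_contra h5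
      have h6 : (1 + rr t) / (1 - rr t) ≤ 0 := div_nonpos_of_nonpos_of_nonneg (not_lt.1 h5) h1.le
      linarith
    have e1 : (1 - rr t ^ 2) * Real.exp t = (1 + rr t) ^ 2 := by
      rw [← h2]
      field_simp
      ring
    have e2 : (1 - rr t ^ 2) * Real.exp (-t) = (1 - rr t) ^ 2 := by
      rw [Real.exp_neg, ← h2]
      field_simp
      ring
    have hc : Real.cos θ = Real.cos (θ / 2) ^ 2 - Real.sin (θ / 2) ^ 2 := by
      have := Real.cos_two_mul' (θ / 2)
      rwa [mul_div_cancel₀ θ (two_ne_zero)] at this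
    have hs : Real.sin θ = 2 * Real.sin (θ / 2) * Real.cos (θ / 2) := by
      have := Real.sin_two_mul (θ / 2)
      rwa [mul_div_cancel₀ θ (two_ne_zero)] at this
    have h5 := Real.sin_sq_add_cos_sq (θ / 2)
    have e3 : (1 - rr t ^ 2) * (Real.exp t * (p * Real.cos (θ / 2) + q * Real.sin (θ / 2)) ^ 2 +
        Real.exp (-t) * (q * Real.cos (θ / 2) - p * Real.sin (θ / 2)) ^ 2) =
        (1 + rr t) ^ 2 * (p * Real.cos (θ / 2) + q * Real.sin (θ / 2)) ^ 2 +
        (1 - rr t) ^ 2 * (q * Real.cos (θ / 2) - p * Real.sin (θ / 2)) ^ 2 := by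
      rw [← e1, ← e2]
      ring
    rw [e3, hc, hs]
    obtain ⟨c, hcd⟩ : ∃ c, c = Real.cos (θ / 2) := ⟨_, rfl⟩
    obtain ⟨s, hsd⟩ : ∃ s, s = Real.sin (θ / 2) := ⟨_, rfl⟩
    rw [← hcd, ← hsd] at h5 ⊢
    obtain ⟨r, hr⟩ : ∃ r, r = rr t := ⟨_, rfl⟩
    rw [← hr]
    linear_combination (-((p : ℝ) ^ 2 + (q : ℝ) ^ 2) * (1 - r ^ 2 * (s ^ 2 + c ^ 2))) * h5
  · intro t θ p q p' q' hne
    have h5 := Real.sin_sq_add_cos_sq (θ / 2)
    obtain ⟨c, hcd⟩ : ∃ c, c = Real.cos (θ / 2) := ⟨_, rfl⟩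
    obtain ⟨s, hsd⟩ : ∃ s, s = Real.sin (θ / 2) := ⟨_, rfl⟩
    rw [← hcd, ← hsd] at h5 ⊢
    have hx : 0 < Real.exp t := Real.exp_pos t
    have hxy : Real.exp t * Real.exp (-t) = 1 := by
      rw [← Real.exp_add]
      simp
    have hy : 0 < Real.exp (-t) := Real.exp_pos _
    obtain ⟨x, hxd⟩ : ∃ x, x = Real.exp t := ⟨_, rfl⟩
    obtain ⟨y, hyd⟩ : ∃ y, y = Real.exp (-t) := ⟨_, rfl⟩
    rw [← hxd, ← hyd] at hxy ⊢
    rw [← hxd] at hx
    rw [← hyd] at hy
    have hdet : (p * c + q * s) * (q' * c - p' * s) - (q * c - p * s) * (p' * c + q' * s) =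
        ((p * q' - q * p' : ℤ) : ℝ) := by
      push_cast
      linear_combination ((p : ℝ) * q' - q * p') * h5
    have hd1 : (1 : ℝ) ≤ ((p * q' - q * p' : ℤ) : ℝ) ^ 2 := by
      have : (1 : ℤ) ≤ (p * q' - q * p') ^ 2 := by
        have h7 : 0 < (p * q' - q * p') ^ 2 := by positivity
        omega
      exact_mod_cast this
    rw [← hdet] at hd1
    set a := (p : ℝ) * c + q * s with ha
    set b := (q : ℝ) * c - p * s with hb
    set a' := (p' : ℝ) * c + q' * s with ha'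
    set b' := (q' : ℝ) * c - p' * s with hb'
    have key : (x * a ^ 2 + y * b ^ 2) * (x * a' ^ 2 + y * b' ^ 2) =
        (a * b' - b * a') ^ 2 + (x * a * a' + y * b * b') ^ 2 := by
      linear_combination (a * b' - b * a') ^ 2 * hxy
    rw [key]
    nlinarith [sq_nonneg (x * a * a' + y * b * b')]

end Pool.Agent.Helper37.QC
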